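import Pool.Agent.Helper89.HY.St3

/-!
# Project HY3, module CHB: the chessboard estimate
-/

set_option autoImplicit false

noncomputable section

namespace Pool.Agent.Helper31.HY

open Finset
open Pool.Agent.Helper89.HY

open Classical in
/-- number of the pairs with equal values -/
private def cn2 {α β X : Type} (A : Finset α) (B : Finset β) (f : α → X) (h : β → X) : ℕ :=
  ((A ×ˢ B).filter fun p : α × β => f p.1 = h p.2).card

open Classical in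
private theorem cn2_eq {α β X : Type} (A : Finset α) (B : Finset β) (f : α → X) (h : β → X)
    (X0 : Finset X) (hX : ∀ a ∈ A, f a ∈ X0) :
    cn2 A B f h =
      ∑ x ∈ X0, (A.filter fun a => f a = x).card * (B.filter fun b => h b = x).card := by
  unfold cn2
  rw [Finset.card_eq_sum_card_fiberwise (f := fun p : α × β => f p.1) (t := X0)]
  · refine Finset.sum_congr rfl fun x _ => ?_
    rw [← Finset.card_product]
    congr 1
    ext ⟨a, b⟩
    simp only [Finset.mem_filter, Finset.mem_product]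
    constructor
    · rintro ⟨⟨⟨ha, hb⟩, h1⟩, h2⟩
      exact ⟨⟨ha, h2⟩, hb, h1.symm.trans h2⟩
    · rintro ⟨⟨ha, h1⟩, hb, h2⟩
      exact ⟨⟨⟨ha, hb⟩, h1.trans h2.symm⟩, h1⟩
  · intro p hp
    have h1 := Finset.mem_product.1 (Finset.mem_filter.1 hp).1
    exact hX _ h1.1

private theorem cn2_sq {α β X : Type} (A : Finset α) (B : Finset β) (f : α → X) (h : β → X) :
    cn2 A B f h ^ 2 ≤ cn2 A A f f * cn2 B B h h := by
  classical
  have i1 : ∀ a ∈ A, f a ∈ A.image f ∪ B.image h := fun a ha =>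
    Finset.mem_union_left _ (Finset.mem_image_of_mem f ha)
  have i2 : ∀ b ∈ B, h b ∈ A.image f ∪ B.image h := fun b hb =>
    Finset.mem_union_right _ (Finset.mem_image_of_mem h hb)
  rw [cn2_eq A B f h _ i1, cn2_eq A A f f _ i1, cn2_eq B B h h _ i2]
  simp only [← sq]
  exact Finset.sum_mul_sq_le_sq_mul_sq _ _ _

/-- the part with two inverses -/
private def kk {G ι : Type} [Group G] (z : ι → G) (a b : G) (T : ι × ι × ι) : G :=
  (z T.1)⁻¹ * a * z T.2.1 * b * (z T.2.2)⁻¹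

/-- the part with one inverse -/
private def kp {G ι : Type} [Group G] (z : ι → G) (a b : G) (T : ι × ι × ι) : G :=
  z T.1 * a * (z T.2.1)⁻¹ * b * z T.2.2

private theorem mem6 {ι : Type} {s : Finset ι} {i : Fin 6 → ι}
    (hi : i ∈ Fintype.piFinset fun _ : Fin 6 => s) (k : Fin 6) : i k ∈ s :=
  Fintype.mem_piFinset.1 hi k

private theorem mk6 {ι : Type} {s : Finset ι} {a b c d e f : ι} (ha : a ∈ s) (hb : b ∈ s)
    (hc : c ∈ s) (hd : d ∈ s) (he : e ∈ s) (hf : f ∈ s) :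
    ![a, b, c, d, e, f] ∈ Fintype.piFinset fun _ : Fin 6 => s := by
  rw [Fintype.mem_piFinset]
  intro k
  fin_cases k
  · exact ha
  · exact hb
  · exact hc
  · exact hd
  · exact he
  · exact hf

private theorem eta6 {ι : Type} (i : Fin 6 → ι) : ![i 0, i 1, i 2, i 3, i 4, i 5] = i := by
  funext k
  fin_cases k <;> rfl

private theorem FF_cut {G ι : Type} [Group G] (s : Finset ι) (z : ι → G) (g : Fin 6 → G) :
    FF s z g = cn2 (s ×ˢ s ×ˢ s) (s ×ˢ s ×ˢ s) (kk z (g 0) (g 1))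
      (fun T => (g 2 * kp z (g 3) (g 4) T * g 5)⁻¹) := by
  classical
  unfold FF cn2
  refine Finset.card_nbij' (fun i => ((i 0, i 1, i 2), (i 3, i 4, i 5)))
    (fun p => ![p.1.1, p.1.2.1, p.1.2.2, p.2.1, p.2.2.1, p.2.2.2]) ?_ ?_ ?_ ?_
  · intro i hi
    have h1 := Finset.mem_filter.1 hi
    have h2 := mem6 h1.1
    refine Finset.mem_filter.2 ⟨?_, ?_⟩
    · simp only [Finset.mem_product]
      exact ⟨⟨h2 0, h2 1, h2 2⟩, h2 3, h2 4, h2 5⟩
    · show kk z (g 0) (g 1) (i 0, i 1, i 2) = (g 2 * kp z (g 3) (g 4) (i 3, i 4, i 5) * g 5)⁻¹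
      rw [eq_inv_iff_mul_eq_one, ← h1.2]
      unfold kk kp
      simp only [mul_assoc]
  · rintro ⟨⟨a, b, c⟩, d, e, f⟩ hp
    have h1 := Finset.mem_filter.1 hp
    have h2 := h1.1
    simp only [Finset.mem_product] at h2
    refine Finset.mem_filter.2 ⟨mk6 h2.1.1 h2.1.2.1 h2.1.2.2 h2.2.1 h2.2.2.1 h2.2.2.2, ?_⟩
    have h3 : kk z (g 0) (g 1) (a, b, c) = (g 2 * kp z (g 3) (g 4) (d, e, f) * g 5)⁻¹ := h1.2
    rw [eq_inv_iff_mul_eq_one] at h3
    show (z a)⁻¹ * g 0 * z b * g 1 * (z c)⁻¹ * g 2 * z d * g 3 * (z e)⁻¹ * g 4 * z f * g 5 = 1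
    rw [← h3]
    unfold kk kp
    simp only [mul_assoc]
  · intro i _
    exact eta6 i
  · rintro ⟨⟨a, b, c⟩, d, e, f⟩ _
    rfl

/-- the configurations from the even places -/
private def EE {G ι : Type} [Group G] (s : Finset ι) (z : ι → G) (a b : G) : ℕ :=
  FF s z ![a, b, 1, b⁻¹, a⁻¹, 1]

/-- the configurations from the odd places -/
private def OO {G ι : Type} [Group G] (s : Finset ι) (z : ι → G) (a b : G) : ℕ :=
  FF s z ![1, a, b, 1, b⁻¹, a⁻¹]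

private theorem EE_eq {G ι : Type} [Group G] (s : Finset ι) (z : ι → G) (a b : G) :
    cn2 (s ×ˢ s ×ˢ s) (s ×ˢ s ×ˢ s) (kk z a b) (kk z a b) = EE s z a b := by
  classical
  unfold EE FF cn2
  refine Finset.card_nbij' (fun p => ![p.1.1, p.1.2.1, p.1.2.2, p.2.2.2, p.2.2.1, p.2.1])
    (fun i => ((i 0, i 1, i 2), (i 5, i 4, i 3))) ?_ ?_ ?_ ?_
  · rintro ⟨⟨i0, i1, i2⟩, i3, i4, i5⟩ hp
    have h1 := Finset.mem_filter.1 hp
    have h2 := h1.1
    simp only [Finset.mem_product] at h2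
    refine Finset.mem_filter.2 ⟨mk6 h2.1.1 h2.1.2.1 h2.1.2.2 h2.2.2.2 h2.2.2.1 h2.2.1, ?_⟩
    have h3 : kk z a b (i0, i1, i2) = kk z a b (i3, i4, i5) := h1.2
    show (z i0)⁻¹ * a * z i1 * b * (z i2)⁻¹ * 1 * z i5 * b⁻¹ * (z i4)⁻¹ * a⁻¹ * z i3 * 1 = 1
    rw [← mul_inv_eq_one] at h3
    refine Eq.trans ?_ h3
    unfold kk
    simp only [mul_assoc, mul_inv_rev, inv_inv, one_mul, mul_one]
  · intro i hi
    have h1 := Finset.mem_filter.1 hi
    have h2 := mem6 h1.1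
    refine Finset.mem_filter.2 ⟨?_, ?_⟩
    · simp only [Finset.mem_product]
      exact ⟨⟨h2 0, h2 1, h2 2⟩, h2 5, h2 4, h2 3⟩
    · show kk z a b (i 0, i 1, i 2) = kk z a b (i 5, i 4, i 3)
      have h3 : (z (i 0))⁻¹ * a * z (i 1) * b * (z (i 2))⁻¹ * 1 * z (i 3) * b⁻¹ * (z (i 4))⁻¹ *
        a⁻¹ * z (i 5) * 1 = 1 := h1.2
      rw [← mul_inv_eq_one]
      refine Eq.trans ?_ h3
      unfold kk
      simp only [mul_assoc, mul_inv_rev, inv_inv, one_mul, mul_one]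
  · rintro ⟨⟨i0, i1, i2⟩, i3, i4, i5⟩ _
    rfl
  · intro i _
    exact eta6 i

private theorem OO_eq {G ι : Type} [Group G] (s : Finset ι) (z : ι → G) (a b : G) :
    cn2 (s ×ˢ s ×ˢ s) (s ×ˢ s ×ˢ s) (kp z a b) (kp z a b) = OO s z a b := by
  classical
  unfold OO FF cn2
  refine Finset.card_nbij' (fun p => ![p.2.1, p.1.1, p.1.2.1, p.1.2.2, p.2.2.2, p.2.2.1])
    (fun i => ((i 1, i 2, i 3), (i 0, i 5, i 4))) ?_ ?_ ?_ ?_
  · rintro ⟨⟨i0, i1, i2⟩, i3, i4, i5⟩ hp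
    have h1 := Finset.mem_filter.1 hp
    have h2 := h1.1
    simp only [Finset.mem_product] at h2
    refine Finset.mem_filter.2 ⟨mk6 h2.2.1 h2.1.1 h2.1.2.1 h2.1.2.2 h2.2.2.2 h2.2.2.1, ?_⟩
    have h3 : kp z a b (i0, i1, i2) = kp z a b (i3, i4, i5) := h1.2
    show (z i3)⁻¹ * 1 * z i0 * a * (z i1)⁻¹ * b * z i2 * 1 * (z i5)⁻¹ * b⁻¹ * z i4 * a⁻¹ = 1
    rw [← mul_inv_eq_one] at h3
    have h4 : (z i3)⁻¹ * (kp z a b (i0, i1, i2) * (kp z a b (i3, i4, i5))⁻¹) * z i3 = 1 := by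
      rw [h3, mul_one, inv_mul_cancel]
    refine Eq.trans ?_ h4
    unfold kp
    simp only [mul_assoc, mul_inv_rev, inv_inv, one_mul, mul_one, inv_mul_cancel]
  · intro i hi
    have h1 := Finset.mem_filter.1 hi
    have h2 := mem6 h1.1
    refine Finset.mem_filter.2 ⟨?_, ?_⟩
    · simp only [Finset.mem_product]
      exact ⟨⟨h2 1, h2 2, h2 3⟩, h2 0, h2 5, h2 4⟩
    · show kp z a b (i 1, i 2, i 3) = kp z a b (i 0, i 5, i 4)
      have h3 : (z (i 0))⁻¹ * 1 * z (i 1) * a * (z (i 2))⁻¹ * b * z (i 3) * 1 * (z (i 4))⁻¹ *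
        b⁻¹ * z (i 5) * a⁻¹ = 1 := h1.2
      have h4 : (z (i 0))⁻¹ * (kp z a b (i 1, i 2, i 3) * (kp z a b (i 0, i 5, i 4))⁻¹) *
          z (i 0) = 1 := by
        refine Eq.trans ?_ h3
        unfold kp
        simp only [mul_assoc, mul_inv_rev, inv_inv, one_mul, mul_one, inv_mul_cancel]
      rw [← mul_inv_eq_one]
      have h5 : kp z a b (i 1, i 2, i 3) * (kp z a b (i 0, i 5, i 4))⁻¹ =
          z (i 0) * ((z (i 0))⁻¹ * (kp z a b (i 1, i 2, i 3) * (kp z a b (i 0, i 5, i 4))⁻¹) *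
            z (i 0)) * (z (i 0))⁻¹ := by
        group
      rw [h5, h4, mul_one, mul_inv_cancel]
  · rintro ⟨⟨i0, i1, i2⟩, i3, i4, i5⟩ _
    rfl
  · intro i _
    exact eta6 i

/-- the first cut -/
private theorem cut0 {G ι : Type} [Group G] (s : Finset ι) (z : ι → G) (g : Fin 6 → G) :
    FF s z g ^ 2 ≤ EE s z (g 0) (g 1) * OO s z (g 3) (g 4) := by
  classical
  rw [FF_cut, ← EE_eq, ← OO_eq]
  refine (cn2_sq _ _ _ _).trans (le_of_eq ?_)
  congr 1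
  unfold cn2
  congr 1
  refine Finset.filter_congr fun p _ => ?_
  show (g 2 * kp z (g 3) (g 4) p.1 * g 5)⁻¹ = (g 2 * kp z (g 3) (g 4) p.2 * g 5)⁻¹ ↔ _
  rw [inv_inj, mul_left_inj, mul_right_inj]

/-- the shift by two places -/
private theorem shift2 {G ι : Type} [Group G] (s : Finset ι) (z : ι → G) (g : Fin 6 → G) :
    FF s z g = FF s z ![g 2, g 3, g 4, g 5, g 0, g 1] := by
  classical
  unfold FF
  refine Finset.card_nbij' (fun i => ![i 2, i 3, i 4, i 5, i 0, i 1])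
    (fun i => ![i 4, i 5, i 0, i 1, i 2, i 3]) ?_ ?_ ?_ ?_
  · intro i hi
    have h1 := Finset.mem_filter.1 hi
    have h2 := mem6 h1.1
    refine Finset.mem_filter.2 ⟨mk6 (h2 2) (h2 3) (h2 4) (h2 5) (h2 0) (h2 1), ?_⟩
    show (z (i 2))⁻¹ * g 2 * z (i 3) * g 3 * (z (i 4))⁻¹ * g 4 * z (i 5) * g 5 * (z (i 0))⁻¹ *
      g 0 * z (i 1) * g 1 = 1
    have h3 : (z (i 2))⁻¹ * g 2 * z (i 3) * g 3 * (z (i 4))⁻¹ * g 4 * z (i 5) * g 5 *
        (z (i 0))⁻¹ * g 0 * z (i 1) * g 1 =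
        ((z (i 0))⁻¹ * g 0 * z (i 1) * g 1)⁻¹ * ((z (i 0))⁻¹ * g 0 * z (i 1) * g 1 *
          (z (i 2))⁻¹ * g 2 * z (i 3) * g 3 * (z (i 4))⁻¹ * g 4 * z (i 5) * g 5) *
          ((z (i 0))⁻¹ * g 0 * z (i 1) * g 1) := by
      group
    rw [h3, h1.2, mul_one, inv_mul_cancel]
  · intro i hi
    have h1 := Finset.mem_filter.1 hi
    have h2 := mem6 h1.1
    refine Finset.mem_filter.2 ⟨mk6 (h2 4) (h2 5) (h2 0) (h2 1) (h2 2) (h2 3), ?_⟩
    show (z (i 4))⁻¹ * g 0 * z (i 5) * g 1 * (z (i 0))⁻¹ * g 2 * z (i 1) * g 3 * (z (i 2))⁻¹ *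
      g 4 * z (i 3) * g 5 = 1
    have h4 : (z (i 0))⁻¹ * g 2 * z (i 1) * g 3 * (z (i 2))⁻¹ * g 4 * z (i 3) * g 5 *
      (z (i 4))⁻¹ * g 0 * z (i 5) * g 1 = 1 := h1.2
    have h3 : (z (i 4))⁻¹ * g 0 * z (i 5) * g 1 * (z (i 0))⁻¹ * g 2 * z (i 1) * g 3 *
        (z (i 2))⁻¹ * g 4 * z (i 3) * g 5 =
        ((z (i 4))⁻¹ * g 0 * z (i 5) * g 1) * ((z (i 0))⁻¹ * g 2 * z (i 1) * g 3 *
          (z (i 2))⁻¹ * g 4 * z (i 3) * g 5 * (z (i 4))⁻¹ * g 0 * z (i 5) * g 1) *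
          ((z (i 4))⁻¹ * g 0 * z (i 5) * g 1)⁻¹ := by
      group
    rw [h3, h4, mul_one, mul_inv_cancel]
  · intro i _
    exact eta6 i
  · intro i _
    exact eta6 i

private theorem cut2 {G ι : Type} [Group G] (s : Finset ι) (z : ι → G) (g : Fin 6 → G) :
    FF s z g ^ 2 ≤ EE s z (g 2) (g 3) * OO s z (g 5) (g 0) := by
  rw [shift2]
  exact cut0 s z ![g 2, g 3, g 4, g 5, g 0, g 1]

private theorem cut4 {G ι : Type} [Group G] (s : Finset ι) (z : ι → G) (g : Fin 6 → G) :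
    FF s z g ^ 2 ≤ EE s z (g 4) (g 5) * OO s z (g 1) (g 2) := by
  rw [shift2]
  exact cut2 s z ![g 2, g 3, g 4, g 5, g 0, g 1]

private theorem sq_of {x a b c : ℕ} (h : x ^ 2 ≤ a * b) (ha : a ^ 2 ≤ c) (hb : b ^ 2 ≤ c) :
    x ^ 2 ≤ c := by
  have h1 : (x ^ 2) ^ 2 ≤ c ^ 2 := by
    calc (x ^ 2) ^ 2 ≤ (a * b) ^ 2 := Nat.pow_le_pow_left h 2
      _ = a ^ 2 * b ^ 2 := by ring
      _ ≤ c * c := Nat.mul_le_mul ha hb
      _ = c ^ 2 := by ring
  exact (Nat.pow_le_pow_iff_left two_ne_zero).1 h1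

theorem hCHB : StCHB := by
  intro G ι _ s z g
  classical
  obtain ⟨F1, hF1⟩ : ∃ F1 : ℕ, F1 = FF s z (fun _ => 1) := ⟨_, rfl⟩
  rw [← hF1]
  have hE11 : EE s z 1 1 = F1 := by
    rw [hF1]
    unfold EE
    congr 1
    funext k
    fin_cases k <;> simp
  have hO11 : OO s z 1 1 = F1 := by
    rw [hF1]
    unfold OO
    congr 1
    funext k
    fin_cases k <;> simp
  -- the maximum
  have hbd : ∀ g' : Fin 6 → G, FF s z g' ≤ (Fintype.piFinset fun _ : Fin 6 => s).card := by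
    intro g'
    unfold FF
    exact Finset.card_filter_le _ _
  obtain ⟨M, hM, g0, hg0⟩ : ∃ M : ℕ, (∀ g' : Fin 6 → G, FF s z g' ≤ M) ∧
      ∃ g0 : Fin 6 → G, FF s z g0 = M := by
    have h1 : BddAbove (Set.range fun g' : Fin 6 → G => FF s z g') := by
      refine ⟨(Fintype.piFinset fun _ : Fin 6 => s).card, ?_⟩
      rintro _ ⟨g', rfl⟩
      exact hbd g'
    have h2 : (Set.range fun g' : Fin 6 → G => FF s z g').Nonempty := ⟨_, ⟨fun _ => 1, rfl⟩⟩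
    refine ⟨sSup (Set.range fun g' : Fin 6 → G => FF s z g'), ?_, ?_⟩
    · intro g'
      exact le_csSup h1 ⟨g', rfl⟩
    · exact Nat.sSup_mem h2 h1
  have hE1 : ∀ u : G, EE s z u 1 ^ 2 ≤ F1 * M := by
    intro u
    have h1 := cut2 s z ![u, 1, 1, 1⁻¹, u⁻¹, 1]
    have h2 : EE s z u 1 ^ 2 ≤ EE s z 1 1⁻¹ * OO s z 1 u := h1
    rw [inv_one, hE11] at h2
    exact h2.trans (Nat.mul_le_mul_left _ (hM _))
  have hO1 : ∀ u : G, OO s z u 1 ^ 2 ≤ F1 * M := by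
    intro u
    have h1 := cut0 s z ![1, u, 1, 1, 1⁻¹, u⁻¹]
    have h2 : OO s z u 1 ^ 2 ≤ EE s z 1 u * OO s z 1 1⁻¹ := h1
    rw [inv_one, hO11, mul_comm] at h2
    exact h2.trans (Nat.mul_le_mul_left _ (hM _))
  have hE : ∀ a b : G, EE s z a b ^ 2 ≤ F1 * M := by
    intro a b
    have h1 := cut4 s z ![a, b, 1, b⁻¹, a⁻¹, 1]
    have h2 : EE s z a b ^ 2 ≤ EE s z a⁻¹ 1 * OO s z b 1 := h1
    exact sq_of h2 (hE1 _) (hO1 _)
  have hO : ∀ a b : G, OO s z a b ^ 2 ≤ F1 * M := by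
    intro a b
    have h1 := cut2 s z ![1, a, b, 1, b⁻¹, a⁻¹]
    have h2 : OO s z a b ^ 2 ≤ EE s z b 1 * OO s z a⁻¹ 1 := h1
    exact sq_of h2 (hE1 _) (hO1 _)
  have hfin : FF s z g0 ^ 2 ≤ F1 * M := sq_of (cut0 s z g0) (hE _ _) (hO _ _)
  rw [hg0] at hfin
  refine (hM g).trans ?_
  rcases Nat.eq_zero_or_pos M with h | h
  · rw [h]
    exact Nat.zero_le _
  · rw [sq] at hfin
    exact Nat.le_of_mul_le_mul_right hfin h

end Pool.Agent.Helper31.HY
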