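import Pool.Agent.Helper89.HY.St

/-!
# Project HY, module WT: Fejer weights on `ZMod p`
-/

set_option autoImplicit false

noncomputable section

namespace Pool.Agent.Helper31.HY

open Finset Matrix
open Pool.Agent.Helper89.HY

private theorem ad_add {p : ℕ} [Fact p.Prime] (x y : ZMod p) :
    ad p (x + y) = ad p x * ad p y := by
  unfold ad
  exact AddChar.map_add_eq_mul _ _ _

private theorem ad_conj {p : ℕ} [Fact p.Prime] (x : ZMod p) :
    (starRingEnd ℂ) (ad p x) = ad p (-x) := by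
  unfold ad
  exact (AddChar.map_neg_eq_conj _ _).symm

private theorem ad_sum {p : ℕ} [Fact p.Prime] (t : ZMod p) :
    ∑ m : ZMod p, ad p (m * t) = if t = 0 then (p : ℂ) else 0 := by
  have h := AddChar.sum_mulShift t (ZMod.isPrimitive_stdAddChar p)
  rw [ZMod.card] at h
  unfold ad
  rw [h]
  split_ifs <;> simp

private theorem cv_eq {p : ℕ} [Fact p.Prime] (a : ZMod p) (L : ℕ) (m : ZMod p) :
    (cv p a L m : ℂ) = (∑ q ∈ range L ×ˢ range L,
      ad p (m * -(a * ((q.1 : ZMod p) - q.2)))) / (p * L) := by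
  unfold cv
  push_cast
  congr 1
  rw [← Complex.conj_mul', map_sum, Finset.sum_mul_sum, ← Finset.sum_product']
  refine Finset.sum_congr rfl fun q _ => ?_
  rw [ad_conj, ← ad_add]
  congr 1
  ring

private theorem part2 {p : ℕ} [Fact p.Prime] (a : ZMod p) (L : ℕ) (x : ZMod p) :
    (cw p a L x : ℂ) = ∑ m : ZMod p, (cv p a L m : ℂ) * ad p (m * x) := by
  have hp : (p : ℂ) ≠ 0 := by exact_mod_cast (Fact.out : p.Prime).ne_zero
  have h1 : ∀ m : ZMod p, (cv p a L m : ℂ) * ad p (m * x) =
      (∑ q ∈ range L ×ˢ range L, ad p (m * (x - a * ((q.1 : ZMod p) - q.2)))) / (p * L) := by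
    intro m
    rw [cv_eq, div_mul_eq_mul_div, Finset.sum_mul]
    congr 1
    refine Finset.sum_congr rfl fun q _ => ?_
    rw [← ad_add]
    congr 1
    ring
  rw [Finset.sum_congr rfl fun m _ => h1 m, ← Finset.sum_div, Finset.sum_comm]
  have h2 : ∀ q : ℕ × ℕ, ∑ m : ZMod p, ad p (m * (x - a * ((q.1 : ZMod p) - q.2))) =
      if a * ((q.1 : ZMod p) - q.2) = x then (p : ℂ) else 0 := by
    intro q
    rw [ad_sum]
    refine if_congr ?_ rfl rfl
    rw [sub_eq_zero, eq_comm]
  rw [Finset.sum_congr rfl fun q _ => h2 q, ← Finset.sum_filter, Finset.sum_const, nsmul_eq_mul]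
  unfold cw
  push_cast
  by_cases hL : (L : ℂ) = 0
  · rw [hL]
    simp
  · field_simp

private theorem part3 {p : ℕ} [Fact p.Prime] (a : ZMod p) (A : ℕ) :
    cv p a (2 * A + 1) 0 = (2 * (A : ℝ) + 1) / p := by
  have hp : (p : ℝ) ≠ 0 := by exact_mod_cast (Fact.out : p.Prime).ne_zero
  have hA : (2 * (A : ℝ) + 1) ≠ 0 := by positivity
  unfold cv
  have h0 : ad p (0 : ZMod p) = 1 := by
    unfold ad
    exact AddChar.map_zero_eq_one _
  have h1 : ∑ j ∈ range (2 * A + 1), ad p ((0 : ZMod p) * a * (j : ZMod p)) =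
      ((2 * (A : ℝ) + 1 : ℝ) : ℂ) := by
    rw [Finset.sum_congr rfl fun j _ => by rw [zero_mul, zero_mul, h0], Finset.sum_const,
      Finset.card_range, nsmul_eq_mul, mul_one]
    push_cast
    ring
  rw [h1, Complex.norm_real, Real.norm_eq_abs, sq_abs]
  push_cast
  field_simp

private theorem cnt {p : ℕ} [Fact p.Prime] (L j : ℕ) :
    ((range L).filter fun j' : ℕ => (j : ZMod p) = j').card ≤ L / p + 1 := by
  have h : ((range L).filter fun j' : ℕ => (j : ZMod p) = j').card ≤ (range (L / p + 1)).card := by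
    refine Finset.card_le_card_of_injOn (fun j' => j' / p) ?_ ?_
    · intro j' hj'
      have h1 := (Finset.mem_filter.1 hj').1
      rw [Finset.mem_range] at h1
      simp only [Finset.coe_range, Set.mem_Iio]
      exact Nat.lt_succ_of_le (Nat.div_le_div_right h1.le)
    · intro u hu v hv huv
      have h1 := (Finset.mem_filter.1 hu).2
      have h2 := (Finset.mem_filter.1 hv).2
      have h3 : (u : ZMod p) = (v : ZMod p) := h1.symm.trans h2
      have h4 : u % p = v % p := (ZMod.natCast_eq_natCast_iff u v p).1 h3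
      have h5 : u / p = v / p := huv
      rw [← Nat.div_add_mod u p, ← Nat.div_add_mod v p, h4, h5]
  rwa [Finset.card_range] at h

private theorem part4 {p : ℕ} [Fact p.Prime] (a : ZMod p) (ha : a ≠ 0) (A : ℕ) :
    cw p a (2 * A + 1) 0 ≤ (2 * (A : ℝ) + 1) / p + 1 := by
  classical
  have hp : (0 : ℝ) < p := by exact_mod_cast (Fact.out : p.Prime).pos
  have hA : (0 : ℝ) < 2 * (A : ℝ) + 1 := by positivity
  unfold cw
  rw [div_le_iff₀ (by push_cast; exact hA)]
  have h1 : ((range (2 * A + 1) ×ˢ range (2 * A + 1)).filter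
      fun q : ℕ × ℕ => a * ((q.1 : ZMod p) - q.2) = 0).card ≤
      (2 * A + 1) * ((2 * A + 1) / p + 1) := by
    rw [Finset.card_filter, Finset.sum_product]
    calc ∑ j ∈ range (2 * A + 1), ∑ j' ∈ range (2 * A + 1),
          (if a * ((j : ZMod p) - (j' : ZMod p)) = 0 then 1 else 0)
        ≤ ∑ j ∈ range (2 * A + 1), ((2 * A + 1) / p + 1) := by
          refine Finset.sum_le_sum fun j _ => ?_
          rw [← Finset.card_filter]
          refine le_trans (Finset.card_le_card ?_) (cnt (2 * A + 1) j)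
          intro j' hj'
          rw [Finset.mem_filter] at hj' ⊢
          refine ⟨hj'.1, ?_⟩
          rcases mul_eq_zero.1 hj'.2 with h | h
          · exact absurd h ha
          · exact sub_eq_zero.1 h
      _ = (2 * A + 1) * ((2 * A + 1) / p + 1) := by
          rw [Finset.sum_const, Finset.card_range, smul_eq_mul]
  have h2 : (((2 * A + 1) / p : ℕ) : ℝ) ≤ (2 * (A : ℝ) + 1) / p := by
    have := @Nat.cast_div_le ℝ _ _ _ (2 * A + 1) p
    push_cast at this
    exact this
  have h3 : ((((range (2 * A + 1) ×ˢ range (2 * A + 1)).filter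
      fun q : ℕ × ℕ => a * ((q.1 : ZMod p) - q.2) = 0).card : ℕ) : ℝ) ≤
      (2 * (A : ℝ) + 1) * ((((2 * A + 1) / p : ℕ) : ℝ) + 1) := by
    exact_mod_cast h1
  push_cast
  calc _ ≤ (2 * (A : ℝ) + 1) * ((((2 * A + 1) / p : ℕ) : ℝ) + 1) := by convert h3
    _ ≤ (2 * (A : ℝ) + 1) * ((2 * (A : ℝ) + 1) / p + 1) := by gcongr
    _ = _ := by ring

private theorem part5 {p : ℕ} [Fact p.Prime] (a : ZMod p) (A : ℕ) (x : ZMod p) :
    (nb p a A x : ℝ) ≤ 2 * cw p a (2 * A + 1) x := by
  classical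
  have hA : (0 : ℝ) < 2 * (A : ℝ) + 1 := by positivity
  have h1 : (((Icc (-(A : ℤ)) A).filter fun h : ℤ => a * (h : ZMod p) = x) ×ˢ range (A + 1)).card ≤
      ((range (2 * A + 1) ×ˢ range (2 * A + 1)).filter
        fun q : ℕ × ℕ => a * ((q.1 : ZMod p) - q.2) = x).card := by
    refine Finset.card_le_card_of_injOn
      (fun t : ℤ × ℕ => (t.2 + t.1.toNat, t.2 + (-t.1).toNat)) ?_ ?_
    · rintro ⟨h, i⟩ ht
      have ht' := Finset.mem_product.1 ht
      have h2 := Finset.mem_filter.1 ht'.1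
      have h3 := Finset.mem_Icc.1 h2.1
      have h4 := Finset.mem_range.1 ht'.2
      simp only at h2 h3 h4
      simp only [Finset.coe_filter, Finset.mem_product, Finset.mem_range, Set.mem_ofPred_eq]
      refine ⟨⟨by omega, by omega⟩, ?_⟩
      have h5 : ((i + h.toNat : ℕ) : ℤ) - ((i + (-h).toNat : ℕ) : ℤ) = h := by
        push_cast
        omega
      have h6 : ((i + h.toNat : ℕ) : ZMod p) - ((i + (-h).toNat : ℕ) : ZMod p) = (h : ZMod p) := by
        have := congrArg (Int.cast : ℤ → ZMod p) h5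
        rw [Int.cast_sub, Int.cast_natCast, Int.cast_natCast] at this
        exact this
      rw [h6]
      exact h2.2
    · rintro ⟨h, i⟩ _ ⟨h', i'⟩ _ he
      simp only [Prod.mk.injEq] at he
      obtain ⟨e1, e2⟩ := he
      have : h = h' := by omega
      subst this
      have : i = i' := by omega
      rw [this]
  rw [Finset.card_product, Finset.card_range] at h1
  have h2 : nb p a A x * (A + 1) ≤ ((range (2 * A + 1) ×ˢ range (2 * A + 1)).filter
        fun q : ℕ × ℕ => a * ((q.1 : ZMod p) - q.2) = x).card := by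
    unfold nb
    convert h1
  obtain ⟨K, hK, hc⟩ : ∃ K : ℕ, nb p a A x * (A + 1) ≤ K ∧
      cw p a (2 * A + 1) x = (K : ℝ) / (2 * (A : ℝ) + 1) := by
    refine ⟨_, h2, ?_⟩
    unfold cw
    push_cast
    congr
  have h3 : (nb p a A x : ℝ) * ((A : ℝ) + 1) ≤ K := by exact_mod_cast hK
  have h0 : (0 : ℝ) ≤ (nb p a A x : ℝ) := Nat.cast_nonneg _
  rw [hc, mul_div_assoc', le_div_iff₀ hA]
  nlinarith

theorem hWT : StWT := by
  intro p _ a A ha
  refine ⟨fun m => ?_, part2 a _, part3 a A, part4 a ha A, part5 a A⟩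
  unfold cv
  positivity

end Pool.Agent.Helper31.HY
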