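import Pool.Agent.Helper89.HY.St2

/-!
# Project HY2, module WTN: Fejer weights on `ZMod n`
-/

set_option autoImplicit false

noncomputable section

namespace Pool.Agent.Helper31.HY

open Finset Matrix
open Pool.Agent.Helper89.HY

private theorem sc_add {n : ℕ} [NeZero n] (x y : ZMod n) :
    (ZMod.stdAddChar (x + y) : ℂ) = ZMod.stdAddChar x * ZMod.stdAddChar y :=
  AddChar.map_add_eq_mul _ _ _

private theorem sc_conj {n : ℕ} [NeZero n] (x : ZMod n) :
    (starRingEnd ℂ) (ZMod.stdAddChar x : ℂ) = ZMod.stdAddChar (-x) :=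
  (AddChar.map_neg_eq_conj _ _).symm

private theorem sc_sum {n : ℕ} [NeZero n] (t : ZMod n) :
    ∑ m : ZMod n, (ZMod.stdAddChar (m * t) : ℂ) = if t = 0 then (n : ℂ) else 0 := by
  have h := AddChar.sum_mulShift t (ZMod.isPrimitive_stdAddChar n)
  rw [ZMod.card] at h
  rw [h]
  split_ifs <;> simp

private theorem cn_eq {n : ℕ} [NeZero n] (a : ZMod n) (L : ℕ) (m : ZMod n) :
    (cn n a L m : ℂ) = (∑ q ∈ range L ×ˢ range L,
      (ZMod.stdAddChar (m * -(a * ((q.1 : ZMod n) - (q.2 : ZMod n)))) : ℂ)) / (n * L) := by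
  unfold cn
  push_cast
  congr 1
  rw [← Complex.conj_mul', map_sum, Finset.sum_mul_sum, ← Finset.sum_product']
  refine Finset.sum_congr rfl fun q _ => ?_
  rw [sc_conj, ← sc_add]
  congr 1
  ring

private theorem npart2 {n : ℕ} [NeZero n] (a : ZMod n) (L : ℕ) (x : ZMod n) :
    (cw n a L x : ℂ) = ∑ m : ZMod n, (cn n a L m : ℂ) * ZMod.stdAddChar (m * x) := by
  have hp : (n : ℂ) ≠ 0 := by exact_mod_cast NeZero.ne n
  have h1 : ∀ m : ZMod n, (cn n a L m : ℂ) * ZMod.stdAddChar (m * x) =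
      (∑ q ∈ range L ×ˢ range L,
        (ZMod.stdAddChar (m * (x - a * ((q.1 : ZMod n) - (q.2 : ZMod n)))) : ℂ)) / (n * L) := by
    intro m
    rw [cn_eq, div_mul_eq_mul_div, Finset.sum_mul]
    congr 1
    refine Finset.sum_congr rfl fun q _ => ?_
    rw [← sc_add]
    congr 1
    ring
  rw [Finset.sum_congr rfl fun m _ => h1 m, ← Finset.sum_div, Finset.sum_comm]
  have h2 : ∀ q : ℕ × ℕ, ∑ m : ZMod n,
      (ZMod.stdAddChar (m * (x - a * ((q.1 : ZMod n) - (q.2 : ZMod n)))) : ℂ) =
      if a * ((q.1 : ZMod n) - (q.2 : ZMod n)) = x then (n : ℂ) else 0 := by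
    intro q
    rw [sc_sum]
    refine if_congr ?_ rfl rfl
    rw [sub_eq_zero, eq_comm]
  rw [Finset.sum_congr rfl fun q _ => h2 q, ← Finset.sum_filter, Finset.sum_const, nsmul_eq_mul]
  unfold cw
  push_cast
  by_cases hL : (L : ℂ) = 0
  · rw [hL]
    simp
  · field_simp

private theorem ncnt (g L j : ℕ) :
    ((range L).filter fun j' : ℕ => j % g = j' % g).card ≤ L / g + 1 := by
  have h : ((range L).filter fun j' : ℕ => j % g = j' % g).card ≤ (range (L / g + 1)).card := by
    refine Finset.card_le_card_of_injOn (fun j' => j' / g) ?_ ?_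
    · intro j' hj'
      have h1 := (Finset.mem_filter.1 hj').1
      rw [Finset.mem_range] at h1
      simp only [Finset.coe_range, Set.mem_Iio]
      exact Nat.lt_succ_of_le (Nat.div_le_div_right h1.le)
    · intro u hu v hv huv
      have h1 := (Finset.mem_filter.1 hu).2
      have h2 := (Finset.mem_filter.1 hv).2
      have h4 : u % g = v % g := h1.symm.trans h2
      have h5 : u / g = v / g := huv
      rw [← Nat.div_add_mod u g, ← Nat.div_add_mod v g, h4, h5]
  rwa [Finset.card_range] at h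

open Classical in
/-- the annihilator of `b` has at most `gcd (b, n)` elements -/
private theorem ann_card {n : ℕ} [NeZero n] (b : ZMod n) :
    (univ.filter (fun m : ZMod n => b * m = 0)).card ≤ Nat.gcd b.val n := by
  have hn : 0 < n := Nat.pos_of_ne_zero (NeZero.ne n)
  set g := Nat.gcd b.val n with hg
  have hg0 : 0 < g := Nat.gcd_pos_of_pos_right _ hn
  obtain ⟨e, he⟩ : g ∣ n := Nat.gcd_dvd_right _ _
  obtain ⟨b', hb'⟩ : g ∣ b.val := Nat.gcd_dvd_left _ _
  have he0 : 0 < e := by
    rcases Nat.eq_zero_or_pos e with h | h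
    · rw [h, mul_zero] at he
      omega
    · exact h
  have hcop : Nat.Coprime e b' := by
    have h1 : Nat.gcd (g * b') (g * e) = g := by rw [← hb', ← he]
    rw [Nat.gcd_mul_left] at h1
    have h2 : Nat.gcd b' e = 1 := Nat.eq_of_mul_eq_mul_left hg0 (by rw [h1, mul_one])
    exact (Nat.coprime_comm.1 h2)
  have hdvd : ∀ m : ZMod n, b * m = 0 → e ∣ m.val := by
    intro m hm
    have h1 : ((b.val * m.val : ℕ) : ZMod n) = 0 := by
      rw [Nat.cast_mul, ZMod.natCast_zmod_val, ZMod.natCast_zmod_val, hm]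
    have h2 : n ∣ b.val * m.val := (ZMod.natCast_eq_zero_iff _ _).1 h1
    have h4 : g * e ∣ g * (b' * m.val) := by
      rw [← he, ← mul_assoc, ← hb']
      exact h2
    have h3 : e ∣ b' * m.val := Nat.dvd_of_mul_dvd_mul_left hg0 h4
    exact hcop.dvd_of_dvd_mul_left h3
  have h : (univ.filter (fun m : ZMod n => b * m = 0)).card ≤ (range g).card := by
    refine Finset.card_le_card_of_injOn (fun m => m.val / e) ?_ ?_
    · intro m _
      simp only [Finset.coe_range, Set.mem_Iio]
      refine Nat.div_lt_of_lt_mul ?_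
      have h1 := ZMod.val_lt m
      rw [mul_comm] at he
      omega
    · intro u hu v hv huv
      have h1 := hdvd u (Finset.mem_filter.1 hu).2
      have h2 := hdvd v (Finset.mem_filter.1 hv).2
      have h3 : u.val / e = v.val / e := huv
      refine ZMod.val_injective n ?_
      rw [← Nat.div_mul_cancel h1, ← Nat.div_mul_cancel h2, h3]
  rwa [Finset.card_range] at h

open Classical in
/-- the character sum over the annihilator -/
private theorem ann_sum {n : ℕ} [NeZero n] (b t : ZMod n) :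
    ‖∑ m ∈ univ.filter (fun m : ZMod n => b * m = 0), (ZMod.stdAddChar (m * t) : ℂ)‖ ≤
      if (∀ m : ZMod n, b * m = 0 → m * t = 0) then (Nat.gcd b.val n : ℝ) else 0 := by
  split_ifs with h
  · have h1 : ∑ m ∈ univ.filter (fun m : ZMod n => b * m = 0), (ZMod.stdAddChar (m * t) : ℂ) =
        ((univ.filter (fun m : ZMod n => b * m = 0)).card : ℂ) := by
      rw [Finset.card_eq_sum_ones, Nat.cast_sum]
      refine Finset.sum_congr rfl fun m hm => ?_
      rw [h m (Finset.mem_filter.1 hm).2, AddChar.map_zero_eq_one]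
      simp
    rw [h1, Complex.norm_natCast]
    exact_mod_cast ann_card b
  · push Not at h
    obtain ⟨m0, hm0, hmt⟩ := h
    have hne : (ZMod.stdAddChar (m0 * t) : ℂ) ≠ 1 := by
      intro h1
      refine hmt (ZMod.injective_stdAddChar ?_)
      rw [h1, AddChar.map_zero_eq_one]
    have h2 : (ZMod.stdAddChar (m0 * t) : ℂ) *
        ∑ m ∈ univ.filter (fun m : ZMod n => b * m = 0), (ZMod.stdAddChar (m * t) : ℂ) =
        ∑ m ∈ univ.filter (fun m : ZMod n => b * m = 0), (ZMod.stdAddChar (m * t) : ℂ) := by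
      rw [Finset.mul_sum]
      refine Finset.sum_bij' (fun m _ => m0 + m) (fun m _ => m - m0) ?_ ?_ ?_ ?_ ?_
      · intro m hm
        rw [Finset.mem_filter] at hm ⊢
        refine ⟨Finset.mem_univ _, ?_⟩
        rw [mul_add, hm0, hm.2, add_zero]
      · intro m hm
        rw [Finset.mem_filter] at hm ⊢
        refine ⟨Finset.mem_univ _, ?_⟩
        rw [mul_sub, hm0, hm.2, sub_zero]
      · intro m _
        ring
      · intro m _
        ring
      · intro m _
        rw [← sc_add]
        congr 1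
        ring
    have h3 : ∑ m ∈ univ.filter (fun m : ZMod n => b * m = 0), (ZMod.stdAddChar (m * t) : ℂ) = 0 := by
      by_contra h4
      exact hne (mul_right_cancel₀ h4 (by rw [h2, one_mul]))
    rw [h3, norm_zero]

open Classical in
private theorem npart3 {n : ℕ} [NeZero n] (a : (ZMod n)ˣ) (A : ℕ) (b : ZMod n) :
    ∑ m ∈ univ.filter (fun m : ZMod n => b * m = 0), cn n a (2 * A + 1) m ≤
      (2 * (A : ℝ) + 1 + Nat.gcd b.val n) / n := by
  have hn : 0 < n := Nat.pos_of_ne_zero (NeZero.ne n)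
  have hnR : (0 : ℝ) < n := by exact_mod_cast hn
  have hA : (0 : ℝ) < 2 * (A : ℝ) + 1 := by positivity
  obtain ⟨g, hg⟩ : ∃ g, g = Nat.gcd b.val n := ⟨_, rfl⟩
  have hg0 : 0 < g := hg ▸ Nat.gcd_pos_of_pos_right _ hn
  have hgR : (0 : ℝ) < g := by exact_mod_cast hg0
  rw [← hg]
  -- the criterion
  have hcrit : ∀ q : ℕ × ℕ, (∀ m : ZMod n, b * m = 0 →
      m * -((a : ZMod n) * ((q.1 : ZMod n) - (q.2 : ZMod n))) = 0) → q.1 % g = q.2 % g := by
    intro q hq
    obtain ⟨e, he⟩ : g ∣ n := hg ▸ Nat.gcd_dvd_right _ _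
    obtain ⟨b', hb'⟩ : g ∣ b.val := hg ▸ Nat.gcd_dvd_left _ _
    have he0 : 0 < e := by
      rcases Nat.eq_zero_or_pos e with h | h
      · rw [h, mul_zero] at he
        omega
      · exact h
    have h1 : b * (e : ZMod n) = 0 := by
      have h2 : ((b.val * e : ℕ) : ZMod n) = 0 := by
        rw [ZMod.natCast_eq_zero_iff, hb']
        refine ⟨b', ?_⟩
        rw [he]
        ring
      rwa [Nat.cast_mul, ZMod.natCast_zmod_val] at h2
    have h3 := hq _ h1
    have h4 : (a : ZMod n) * (((e : ZMod n)) * ((q.1 : ZMod n) - (q.2 : ZMod n))) = 0 := by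
      have h5 : (a : ZMod n) * (((e : ZMod n)) * ((q.1 : ZMod n) - (q.2 : ZMod n))) =
          -((e : ZMod n) * -((a : ZMod n) * ((q.1 : ZMod n) - (q.2 : ZMod n)))) := by ring
      rw [h5, h3, neg_zero]
    have h6 : (e : ZMod n) * ((q.1 : ZMod n) - (q.2 : ZMod n)) = 0 := (Units.mul_right_eq_zero a).1 h4
    have h7 : ((e * q.1 : ℕ) : ZMod n) = ((e * q.2 : ℕ) : ZMod n) := by
      rw [mul_sub, sub_eq_zero] at h6
      rw [Nat.cast_mul, Nat.cast_mul]
      exact h6
    have h8 : e * q.1 ≡ e * q.2 [MOD n] := (ZMod.natCast_eq_natCast_iff _ _ _).1 h7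
    rw [he, mul_comm g e] at h8
    exact Nat.ModEq.mul_left_cancel' he0.ne' h8
  -- the total
  have h1 : ((∑ m ∈ univ.filter (fun m : ZMod n => b * m = 0), cn n a (2 * A + 1) m : ℝ) : ℂ) =
      (∑ q ∈ range (2 * A + 1) ×ˢ range (2 * A + 1),
        ∑ m ∈ univ.filter (fun m : ZMod n => b * m = 0),
          (ZMod.stdAddChar (m * -((a : ZMod n) * ((q.1 : ZMod n) - (q.2 : ZMod n)))) : ℂ)) /
            (n * ((2 * A + 1 : ℕ) : ℂ)) := by
    rw [Complex.ofReal_sum, Finset.sum_comm, Finset.sum_div]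
    exact Finset.sum_congr rfl fun m _ => cn_eq _ _ _
  have h0 : 0 ≤ ∑ m ∈ univ.filter (fun m : ZMod n => b * m = 0), cn n a (2 * A + 1) m := by
    refine Finset.sum_nonneg fun m _ => ?_
    unfold cn
    positivity
  have h2 : ∑ m ∈ univ.filter (fun m : ZMod n => b * m = 0), cn n a (2 * A + 1) m ≤
      (∑ q ∈ range (2 * A + 1) ×ˢ range (2 * A + 1), if q.1 % g = q.2 % g then (g : ℝ) else 0) /
        (n * (2 * (A : ℝ) + 1)) := by
    rw [← Real.norm_of_nonneg h0, ← Complex.norm_real, h1, norm_div]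
    have h3 : ‖(n : ℂ) * ((2 * A + 1 : ℕ) : ℂ)‖ = n * (2 * (A : ℝ) + 1) := by
      rw [norm_mul, Complex.norm_natCast, Complex.norm_natCast]
      push_cast
      ring
    rw [h3]
    refine div_le_div_of_nonneg_right ?_ (by positivity)
    refine (norm_sum_le _ _).trans (Finset.sum_le_sum fun q _ => ?_)
    refine (ann_sum b _).trans ?_
    rw [← hg]
    by_cases hq : ∀ m : ZMod n, b * m = 0 → m * -((a : ZMod n) * ((q.1 : ZMod n) - (q.2 : ZMod n))) = 0
    · rw [if_pos hq, if_pos (hcrit q hq)]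
    · rw [if_neg hq]
      split_ifs
      · exact hgR.le
      · exact le_rfl
  refine h2.trans ?_
  have h4 : (∑ q ∈ range (2 * A + 1) ×ˢ range (2 * A + 1),
      if q.1 % g = q.2 % g then (g : ℝ) else 0) ≤
      (2 * (A : ℝ) + 1) * (2 * (A : ℝ) + 1 + g) := by
    rw [Finset.sum_product]
    calc ∑ j ∈ range (2 * A + 1), ∑ j' ∈ range (2 * A + 1),
          (if j % g = j' % g then (g : ℝ) else 0)
        ≤ ∑ j ∈ range (2 * A + 1), (2 * (A : ℝ) + 1 + g) := by
          refine Finset.sum_le_sum fun j _ => ?_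
          rw [← Finset.sum_filter, Finset.sum_const, nsmul_eq_mul]
          have h5 : (((range (2 * A + 1)).filter fun j' : ℕ => j % g = j' % g).card : ℝ) ≤
              (((2 * A + 1) / g : ℕ) : ℝ) + 1 := by
            exact_mod_cast ncnt g (2 * A + 1) j
          have h6 : (((2 * A + 1) / g : ℕ) : ℝ) ≤ (2 * (A : ℝ) + 1) / g := by
            have := @Nat.cast_div_le ℝ _ _ _ (2 * A + 1) g
            push_cast at this
            exact this
          calc _ ≤ ((2 * (A : ℝ) + 1) / g + 1) * g := by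
                refine mul_le_mul_of_nonneg_right ?_ hgR.le
                linarith
            _ = 2 * (A : ℝ) + 1 + g := by field_simp
      _ = (2 * (A : ℝ) + 1) * (2 * (A : ℝ) + 1 + g) := by
          rw [Finset.sum_const, Finset.card_range, nsmul_eq_mul]
          push_cast
          ring
  rw [div_le_div_iff₀ (by positivity) hnR]
  calc _ ≤ (2 * (A : ℝ) + 1) * (2 * (A : ℝ) + 1 + g) * n :=
        mul_le_mul_of_nonneg_right h4 hnR.le
    _ = _ := by ring

private theorem npart5 {n : ℕ} [NeZero n] (a : ZMod n) (A : ℕ) (x : ZMod n) :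
    (nb n a A x : ℝ) ≤ 2 * cw n a (2 * A + 1) x := by
  classical
  have hA : (0 : ℝ) < 2 * (A : ℝ) + 1 := by positivity
  have h1 : (((Icc (-(A : ℤ)) A).filter fun h : ℤ => a * (h : ZMod n) = x) ×ˢ range (A + 1)).card ≤
      ((range (2 * A + 1) ×ˢ range (2 * A + 1)).filter
        fun q : ℕ × ℕ => a * ((q.1 : ZMod n) - (q.2 : ZMod n)) = x).card := by
    refine Finset.card_le_card_of_injOn
      (fun t : ℤ × ℕ => (t.2 + t.1.toNat, t.2 + (-t.1).toNat)) ?_ ?_
    · rintro ⟨h, i⟩ ht
      have ht' := Finset.mem_product.1 ht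
      have h2 := Finset.mem_filter.1 ht'.1
      have h3 := Finset.mem_Icc.1 h2.1
      have h4 := Finset.mem_range.1 ht'.2
      simp only at h2 h3 h4
      simp only [Finset.coe_filter, Finset.mem_product, Finset.mem_range, Set.mem_ofPred_eq]
      refine ⟨⟨by omega, by omega⟩, ?_⟩
      have h5 : ((i + h.toNat : ℕ) : ℤ) - ((i + (-h).toNat : ℕ) : ℤ) = h := by
        push_cast
        omega
      have h6 : ((i + h.toNat : ℕ) : ZMod n) - ((i + (-h).toNat : ℕ) : ZMod n) = (h : ZMod n) := by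
        have := congrArg (Int.cast : ℤ → ZMod n) h5
        rw [Int.cast_sub, Int.cast_natCast, Int.cast_natCast] at this
        exact this
      rw [h6]
      exact h2.2
    · rintro ⟨h, i⟩ _ ⟨h', i'⟩ _ he
      simp only [Prod.mk.injEq] at he
      obtain ⟨e1, e2⟩ := he
      have : h = h' := by omega
      subst this
      have : i = i' := by omega
      rw [this]
  rw [Finset.card_product, Finset.card_range] at h1
  have h2 : nb n a A x * (A + 1) ≤ ((range (2 * A + 1) ×ˢ range (2 * A + 1)).filter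
        fun q : ℕ × ℕ => a * ((q.1 : ZMod n) - (q.2 : ZMod n)) = x).card := by
    unfold nb
    convert h1
  obtain ⟨K, hK, hc⟩ : ∃ K : ℕ, nb n a A x * (A + 1) ≤ K ∧
      cw n a (2 * A + 1) x = (K : ℝ) / (2 * (A : ℝ) + 1) := by
    refine ⟨_, h2, ?_⟩
    unfold cw
    push_cast
    congr
  have h3 : (nb n a A x : ℝ) * ((A : ℝ) + 1) ≤ K := by exact_mod_cast hK
  have h0 : (0 : ℝ) ≤ (nb n a A x : ℝ) := Nat.cast_nonneg _
  rw [hc, mul_div_assoc', le_div_iff₀ hA]
  nlinarith

theorem hWTN : StWTN := by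
  intro n _ a A
  refine ⟨fun m => ?_, npart2 (a : ZMod n) _, npart3 a A, npart5 (a : ZMod n) A⟩
  unfold cn
  positivity

end Pool.Agent.Helper31.HY
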